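import Pool.Agent.MP_6a4325_al.H62.Base

/-!
Groups with locally finite derived subgroup and finite dimensional solutions are FC-by-finite.
-/

set_option autoImplicit false

namespace Pool.Agent.MP_6a4325_al.H76

open Matrix H62
open scoped Pointwise

variable {G : Type} [Group G]

/-- the FC-centre -/
def fcs (G : Type) [Group G] : Subgroup G where
  carrier := fc G
  one_mem' := by
    have : Subgroup.centralizer ({1} : Set G) = ⊤ := by
      rw [eq_top_iff]
      exact fun g _ => Subgroup.mem_centralizer_singleton_iff.2 (by simp)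
    change (Subgroup.centralizer ({1} : Set G)).FiniteIndex
    rw [this]
    infer_instance
  mul_mem' := fun {a b} ha hb => by
    have h1 : (Subgroup.centralizer ({a} : Set G)).FiniteIndex := ha
    have h2 : (Subgroup.centralizer ({b} : Set G)).FiniteIndex := hb
    refine Subgroup.finiteIndex_of_le (H := Subgroup.centralizer {a} ⊓ Subgroup.centralizer {b})
      fun g hg => Subgroup.mem_centralizer_singleton_iff.2 ?_
    rw [← mul_assoc, Subgroup.mem_centralizer_singleton_iff.1 hg.1, mul_assoc,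
      Subgroup.mem_centralizer_singleton_iff.1 hg.2, mul_assoc]
  inv_mem' := fun {a} ha => by
    have h1 : (Subgroup.centralizer ({a} : Set G)).FiniteIndex := ha
    refine Subgroup.finiteIndex_of_le (H := Subgroup.centralizer {a})
      fun g hg => Subgroup.mem_centralizer_singleton_iff.2 ?_
    rw [mul_inv_eq_iff_eq_mul, mul_assoc, Subgroup.mem_centralizer_singleton_iff.1 hg,
      inv_mul_cancel_left]

theorem fcs_normal : (fcs G).Normal := ⟨fun a ha g => by
  have h1 := finiteIndex_comap _ (show (Subgroup.centralizer ({a} : Set G)).FiniteIndex from ha)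
    (MulAut.conj g⁻¹).toMonoidHom
  refine Subgroup.finiteIndex_of_le (H := (Subgroup.centralizer {a}).comap
    (MulAut.conj g⁻¹).toMonoidHom) fun x hx => Subgroup.mem_centralizer_singleton_iff.2 ?_
  have h2 : g⁻¹ * x * g⁻¹⁻¹ * a = a * (g⁻¹ * x * g⁻¹⁻¹) :=
    Subgroup.mem_centralizer_singleton_iff.1 hx
  calc x * (g * a * g⁻¹) = g * (g⁻¹ * x * g⁻¹⁻¹ * a) * g⁻¹ := by group
    _ = g * a * g⁻¹ * x := by rw [h2]; group⟩

theorem avoid {ι : Type} [Finite ι] (S : ι → Set G)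
    (h : ∀ i, ∃ (a : G) (H : Subgroup G), ¬H.FiniteIndex ∧ ∀ g ∈ S i, a⁻¹ * g ∈ H) :
    ∃ g, ∀ i, g ∉ S i := by
  have := Fintype.ofFinite ι
  choose a H h1 h2 using h
  by_contra c
  push Not at c
  obtain ⟨k, -, hk⟩ := Subgroup.exists_finiteIndex_of_leftCoset_cover (s := Finset.univ) (H := H)
    (g := a) (Set.eq_univ_of_forall fun g => let ⟨i, hi⟩ := c g
      Set.mem_iUnion₂.2 ⟨i, Finset.mem_univ _, (mem_leftCoset_iff _).2 (h2 i g hi)⟩)
  exact h1 k hk

theorem lists (hD : ¬(fcs G).FiniteIndex) (P : Finset G) (k : ℕ) : ∃ l : List G, l.length = k ∧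
    l.Nodup ∧ (∀ w : List G, w.Nodup → w ⊆ l → w ≠ [] → w.prod ∉ fcs G) ∧
    ∀ w : List G, w.Perm l → w ≠ l → l.prod⁻¹ * w.prod ∉ P := by
  classical
  have hN := fcs_normal (G := G)
  induction k with
  | zero => exact ⟨[], rfl, List.nodup_nil, fun w _ h h' => (h' (List.subset_nil.1 h)).elim,
      fun w h h' => (h' h.eq_nil).elim⟩
  | succ k ih =>
    obtain ⟨l, h1, h2, h3, h4⟩ := ih
    obtain ⟨Y, hY⟩ : ∃ Y : Finset G, ∀ w : List G, w.Nodup → w ⊆ l → w.prod ∈ Y :=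
      ⟨((l.sublists.flatMap List.permutations).map List.prod).toFinset, fun w a b => by
        obtain ⟨u, u1, u2⟩ := List.subperm_of_subset a b
        exact List.mem_toFinset.2 (List.mem_map_of_mem (List.mem_flatMap.2
          ⟨u, List.mem_sublists.2 u2, List.mem_permutations.2 u1.symm⟩))⟩
    obtain ⟨g, hg⟩ := avoid (ι := (Y × Y) ⊕ Y ⊕ (Y × Y × P)) (Sum.elim
      (fun p => {g | p.1.1 * g * p.2.1 ∈ fcs G}) (Sum.elim (fun p => {p.1}) fun p =>
        {g | p.1.1 ∉ fcs G ∧ l.prod⁻¹ * (g⁻¹ * p.1 * g) * p.2.1 = p.2.2})) (by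
      rintro (⟨u, u'⟩ | u | ⟨u, u', z⟩)
      · refine ⟨(u' * u : G)⁻¹, _, hD, fun g hg => ?_⟩
        have := hN.conj_mem _ hg u'
        rwa [show u'.1 * (u.1 * g * u'.1) * u'.1⁻¹ = (u'.1 * u.1)⁻¹⁻¹ * g by group] at this
      · exact ⟨u, _, hD, by rintro g rfl; simp⟩
      · by_cases c : ∃ a : G, u.1 ∉ fcs G ∧ l.prod⁻¹ * (a⁻¹ * u * a) * u' = z
        · obtain ⟨a, a1, a2⟩ := c
          refine ⟨a, Subgroup.centralizer {a⁻¹ * u * a}, fun c => a1 ?_, fun g hg => ?_⟩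
          · have := hN.conj_mem _ c a
            rwa [show a * (a⁻¹ * u * a) * a⁻¹ = u by group] at this
          · have e := mul_left_cancel (mul_right_cancel (hg.2.trans a2.symm))
            rw [Subgroup.mem_centralizer_singleton_iff]
            calc a⁻¹ * g * (a⁻¹ * u * a) = a⁻¹ * g * (g⁻¹ * u * g) := by rw [e]
              _ = a⁻¹ * u * a * (a⁻¹ * g) := by group
        · exact ⟨1, _, hD, fun g hg => (c ⟨g, hg⟩).elim⟩)
    have gl : g ∉ l := fun c => hg (.inr (.inl ⟨g, by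
      simpa using hY [g] (List.nodup_singleton g) (by simpa using c)⟩)) rfl
    have sp : ∀ u u' : List G, (u ++ g :: u').Nodup → u ++ g :: u' ⊆ g :: l →
        (u.Nodup ∧ u ⊆ l) ∧ u'.Nodup ∧ u' ⊆ l := fun u u' a b => by
      obtain ⟨a1, a2, a3⟩ := List.nodup_append.1 a
      obtain ⟨a4, a5⟩ := List.nodup_cons.1 a2
      exact ⟨⟨a1, fun x hx => (List.mem_cons.1 (b (by simp [hx]))).resolve_left
        (a3 x hx g (by simp))⟩, a5, fun x hx => (List.mem_cons.1 (b (by simp [hx]))).resolve_left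
          fun c => a4 (c ▸ hx)⟩
    refine ⟨g :: l, by simp [h1], List.nodup_cons.2 ⟨gl, h2⟩, fun w a b c => ?_, fun w a b => ?_⟩
    · by_cases d : g ∈ w
      · obtain ⟨u, u', rfl⟩ := List.append_of_mem d
        obtain ⟨⟨s1, s2⟩, s3, s4⟩ := sp u u' a b
        rw [List.prod_append, List.prod_cons, ← mul_assoc]
        exact hg (.inl (⟨_, hY u s1 s2⟩, ⟨_, hY u' s3 s4⟩))
      · exact h3 w a (fun x hx => (List.mem_cons.1 (b hx)).resolve_left fun e => d (e ▸ hx)) c
    · obtain ⟨u, u', rfl⟩ := List.append_of_mem (a.symm.subset List.mem_cons_self)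
      obtain ⟨⟨s1, s2⟩, s3, s4⟩ := sp u u' (a.nodup_iff.2 (List.nodup_cons.2 ⟨gl, h2⟩)) a.subset
      by_cases d : u = []
      · subst d
        have := h4 u' (List.perm_cons g |>.1 a) fun e => b (by rw [e]; rfl)
        rwa [List.nil_append, List.prod_cons, List.prod_cons, _root_.mul_inv_rev, mul_assoc,
          inv_mul_cancel_left]
      · intro e
        refine hg (.inr (.inr (⟨_, hY u s1 s2⟩, ⟨_, hY u' s3 s4⟩, ⟨_, e⟩))) ⟨h3 u s1 s2 d, ?_⟩
        simp only [List.prod_append, List.prod_cons]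
        group

/-- killed by all representations of size `n` -/
def In (n : ℕ) (x : MonoidAlgebra ℚ G) : Prop :=
  ∀ (K : Type) [Field K] [CharZero K] (ρ : G →* Matrix (Fin n) (Fin n) K), act ℚ ρ x = 0

/-- a finite subgroup of the derived subgroup -/
def Gd (X : Finset G) : Prop :=
  (∀ g ∈ X, g ∈ commutator G) ∧ 1 ∈ X ∧ (∀ a ∈ X, a⁻¹ ∈ X) ∧ ∀ a ∈ X, ∀ b ∈ X, a * b ∈ X

/-- the projection of the identity -/
def Pr (n : ℕ) (X : Finset G) (e : MonoidAlgebra ℚ G) : Prop :=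
  (∀ g ∉ X, e.coeff g = 0) ∧ In n (1 - e) ∧
    ∀ y, In n y → (∀ g ∉ X, y.coeff g = 0) → ∑ g ∈ X, e.coeff g * y.coeff g = 0

theorem exists_gd (hL : LFD G) (T : Finset G) (hT : ∀ g ∈ T, g ∈ commutator G) :
    ∃ X, T ⊆ X ∧ Gd X := by
  have h : (Subgroup.closure (↑T : Set G) : Set G).Finite := hL T hT
  refine ⟨h.toFinset, fun g hg => h.mem_toFinset.2 (Subgroup.subset_closure hg), fun g hg =>
    (Subgroup.closure_le _).2 hT (h.mem_toFinset.1 hg), h.mem_toFinset.2 (one_mem _),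
    fun a ha => h.mem_toFinset.2 (inv_mem (h.mem_toFinset.1 ha)), fun a ha b hb =>
      h.mem_toFinset.2 (mul_mem (h.mem_toFinset.1 ha) (h.mem_toFinset.1 hb))⟩

theorem one_off {X : Finset G} (h : 1 ∈ X) : ∀ g ∉ X, (1 : MonoidAlgebra ℚ G).coeff g = 0 :=
  fun _ hg => Finsupp.single_eq_of_ne fun c => hg (c ▸ h)

theorem exists_pr (n : ℕ) {X : Finset G} (h : 1 ∈ X) : ∃ e, Pr n X e := by
  let J : Submodule ℚ (MonoidAlgebra ℚ G) :=
    { carrier := {y | In n y ∧ ∀ g ∉ X, y.coeff g = 0}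
      add_mem' := fun ha hb => ⟨fun K _ _ ρ => by rw [map_add, ha.1, hb.1, add_zero],
        fun g hg => by simp [ha.2 g hg, hb.2 g hg]⟩
      zero_mem' := ⟨fun K _ _ ρ => map_zero _, fun _ _ => rfl⟩
      smul_mem' := fun c y hy => ⟨fun K _ _ ρ => by rw [map_smul, hy.1, smul_zero],
        fun g hg => by simp [hy.2 g hg]⟩ }
  let B : MonoidAlgebra ℚ G →ₗ[ℚ] MonoidAlgebra ℚ G →ₗ[ℚ] ℚ :=
    LinearMap.mk₂ ℚ (fun a b => ∑ g ∈ X, a.coeff g * b.coeff g)
      (fun a b c => by simp [add_mul, Finset.sum_add_distrib])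
      (fun c a b => by simp [Finset.mul_sum, mul_assoc])
      (fun a b c => by simp [mul_add, Finset.sum_add_distrib])
      (fun c a b => by simp [Finset.mul_sum, mul_left_comm])
  have z : ∀ y : J, (∀ g ∈ X, y.1.coeff g = 0) → y = 0 := fun y hy =>
    Subtype.ext (MonoidAlgebra.ext (Finsupp.ext fun g => (em (g ∈ X)).elim (hy g) (y.2.2 g)))
  have : FiniteDimensional ℚ J := Module.Finite.of_injective
    (LinearMap.pi fun g : X => (Finsupp.lapply g.1).comp
      ((MonoidAlgebra.coeffLinearEquiv ℚ).toLinearMap.comp J.subtype))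
    ((injective_iff_map_eq_zero _).2 fun y hy => z y fun g hg => congrFun hy ⟨g, hg⟩)
  obtain ⟨f, hf⟩ := (LinearMap.injective_iff_surjective_of_finrank_eq_finrank
    (f := (B.compl₁₂ J.subtype J.subtype : J →ₗ[ℚ] Module.Dual ℚ J))
      Subspace.dual_finrank_eq.symm).1
    ((injective_iff_map_eq_zero _).2 fun y hy => z y fun g hg => mul_self_eq_zero.1
      ((Finset.sum_eq_zero_iff_of_nonneg fun _ _ => mul_self_nonneg _).1
        (LinearMap.congr_fun hy y) g hg)) ((B 1).comp J.subtype)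
  refine ⟨1 - f, fun g hg => by simp [one_off h g hg, f.2.2 g hg], by simpa using f.2.1,
    fun y y1 y2 => ?_⟩
  have e : B f y = B 1 y := LinearMap.congr_fun hf ⟨y, y1, y2⟩
  change B (1 - f) y = 0
  rw [map_sub, LinearMap.sub_apply, e, sub_self]

variable {n : ℕ} {X X₀ : Finset G} {e e₀ : MonoidAlgebra ℚ G}

theorem In.tr {y : MonoidAlgebra ℚ G} (h : In n y) (g : G) :
    In n (MonoidAlgebra.mapDomain (fun a => g * a⁻¹) y) := by
  intro K _ _ ρ
  let τ : G →* Matrix (Fin n) (Fin n) K :=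
    { toFun := fun a => (ρ a⁻¹)ᵀ
      map_one' := by simp
      map_mul' := fun a b => by rw [_root_.mul_inv_rev, map_mul, transpose_mul] }
  have e : ∀ y, act ℚ ρ (MonoidAlgebra.mapDomain (fun a => g * a⁻¹) y) = ρ g * (act ℚ τ y)ᵀ := by
    intro y
    induction y using MonoidAlgebra.induction_linear with
    | zero => simp
    | add a b ha hb => rw [MonoidAlgebra.mapDomain_add, map_add, map_add, ha, hb, transpose_add,
        mul_add]
    | single a c =>
      rw [MonoidAlgebra.mapDomain_single, act_single, act_single, map_mul, transpose_smul,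
        mul_smul_comm]
      rfl
  rw [e, h K τ, transpose_zero, mul_zero]

theorem Pr.idem (hX : Gd X) (h : Pr n X e) : e * e = e := by
  obtain ⟨y, hy⟩ : ∃ y, y = 1 - e := ⟨_, rfl⟩
  have y0 : ∀ g ∉ X, y.coeff g = 0 := fun g hg => by simp [hy, one_off hX.2.1 g hg, h.1 g hg]
  suffices e * y = 0 by rwa [hy, mul_sub, mul_one, sub_eq_zero, eq_comm] at this
  refine MonoidAlgebra.ext (Finsupp.ext fun g => ?_)
  have e1 : (e * y).coeff g = ∑ a ∈ X, e.coeff a * y.coeff (a⁻¹ * g) := by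
    rw [MonoidAlgebra.coeff_mul_apply_left]
    exact Finsupp.sum_of_support_subset _ (fun a ha => by_contra fun c =>
      Finsupp.mem_support_iff.1 ha (h.1 a c)) _ fun _ _ => zero_mul _
  have e2 : ∀ a, (MonoidAlgebra.mapDomain (fun a => g * a⁻¹) y).coeff a = y.coeff (a⁻¹ * g) := by
    intro a
    have := Finsupp.mapDomain_apply (f := fun a => g * a⁻¹)
      (fun a b c => inv_injective (mul_left_cancel c)) y.coeff (a⁻¹ * g)
    rwa [show g * (a⁻¹ * g)⁻¹ = a by group] at this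
  rw [e1]
  by_cases hg : g ∈ X
  · simp only [← e2]
    refine h.2.2 _ ((hy ▸ h.2.1).tr g) fun a ha => (e2 a).trans (y0 _ fun c => ha ?_)
    have := hX.2.2.2 _ hg _ (hX.2.2.1 _ c)
    rwa [show g * (a⁻¹ * g)⁻¹ = a by group] at this
  · refine Finset.sum_eq_zero fun a ha => mul_eq_zero_of_right _ (y0 _ fun c => hg ?_)
    have := hX.2.2.2 _ ha _ c
    rwa [mul_inv_cancel_left] at this

theorem Pr.ip (h : Pr n X e) (h₀ : Pr n X₀ e₀) (h1 : 1 ∈ X₀) (hs : X₀ ⊆ X) :
    ∑ g ∈ X, e.coeff g * e₀.coeff g = e.coeff 1 := by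
  classical
  have e1 := h.2.2 _ h₀.2.1 fun g hg => by
    simp [one_off (hs h1) g hg, h₀.1 g fun c => hg (hs c)]
  have e2 : ∑ g ∈ X, e.coeff g * (1 : MonoidAlgebra ℚ G).coeff g = e.coeff 1 := by
    rw [Finset.sum_eq_single_of_mem 1 (hs h1) fun g _ c => mul_eq_zero_of_right _
      (Finsupp.single_eq_of_ne c)]
    simp [MonoidAlgebra.one_def]
  simp only [MonoidAlgebra.coeff_sub, Finsupp.sub_apply, mul_sub, Finset.sum_sub_distrib] at e1
  linarith

theorem Pr.nonneg (h : Pr n X e) (h1 : 1 ∈ X) : 0 ≤ e.coeff 1 :=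
  h.ip h h1 le_rfl ▸ Finset.sum_nonneg fun _ _ => mul_self_nonneg _

theorem Pr.sq_le (h : Pr n X e) (h₀ : Pr n X₀ e₀) (h1 : 1 ∈ X₀) (hs : X₀ ⊆ X) {g : G}
    (hg : g ∈ X) (hg' : g ∉ X₀) : e.coeff g ^ 2 ≤ e₀.coeff 1 - e.coeff 1 := by
  have e1 := h.ip h (hs h1) le_rfl
  have e2 := h.ip h₀ h1 hs
  have e3 := h₀.ip h₀ h1 le_rfl
  rw [Finset.sum_subset hs fun g _ c => mul_eq_zero_of_left (h₀.1 g c) _] at e3
  have e4 := Finset.single_le_sum (f := fun g => e.coeff g * e.coeff g -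
    2 * (e.coeff g * e₀.coeff g) + e₀.coeff g * e₀.coeff g)
    (fun a _ => by nlinarith [sq_nonneg (e.coeff a - e₀.coeff a)]) hg
  simp only [Finset.sum_sub_distrib, Finset.sum_add_distrib, ← Finset.mul_sum, h₀.1 g hg'] at e4
  linarith

theorem small (hD : ¬(fcs G).FiniteIndex) (hL : LFD G) (n : ℕ) {ε : ℚ} (hε : 0 < ε) :
    ∃ (X : Finset G) (e : MonoidAlgebra ℚ G), Gd X ∧ Pr n X e ∧ e.coeff 1 < ε := by
  classical
  by_contra c
  push Not at c
  obtain ⟨k, hk⟩ : ∃ k, k = n * n + 1 := ⟨_, rfl⟩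
  obtain ⟨d, hd⟩ : ∃ d : ℚ, d = ε / Fintype.card (Equiv.Perm (Fin k)) := ⟨_, rfl⟩
  have c0 : (0 : ℚ) < Fintype.card (Equiv.Perm (Fin k)) := Nat.cast_pos.2 Fintype.card_pos
  have d0 : 0 < d := hd ▸ div_pos hε c0
  obtain ⟨X₁, -, g1⟩ := exists_gd hL ∅ (by simp)
  obtain ⟨e₁, p1⟩ := exists_pr n g1.2.1
  obtain ⟨⟨X₀, e₀⟩, ⟨g0, p0⟩, hm⟩ := (measure fun p : Finset G × MonoidAlgebra ℚ G =>
    ⌊p.2.coeff 1 / d ^ 2⌋₊).wf.has_min {p | Gd p.1 ∧ Pr n p.1 p.2} ⟨(X₁, e₁), g1, p1⟩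
  obtain ⟨l, rfl, l1, -, l2⟩ := lists hD X₀ k
  obtain ⟨t, ht⟩ : ∃ t : Equiv.Perm (Fin l.length) → G,
      t = fun σ => l.prod⁻¹ * (List.ofFn fun i => l.get (σ i)).prod := ⟨_, rfl⟩
  have pe : ∀ σ : Equiv.Perm (Fin l.length), (List.ofFn fun i => l.get (σ i)).Perm l := fun σ =>
    (σ.ofFn_comp_perm l.get).trans (by rw [List.ofFn_get])
  obtain ⟨X, hX, gX⟩ := exists_gd hL (X₀ ∪ Finset.univ.image t) fun g hg => by
    rcases Finset.mem_union.1 hg with hg | hg
    · exact g0.1 g hg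
    · obtain ⟨σ, -, rfl⟩ := Finset.mem_image.1 hg
      rw [← Abelianization.ker_of, MonoidHom.mem_ker, ht, map_mul, map_inv, map_list_prod,
        map_list_prod, ((pe σ).map _).prod_eq, inv_mul_cancel]
  have s0 : X₀ ⊆ X := Finset.subset_union_left.trans hX
  have tX : ∀ σ, t σ ∈ X := fun σ =>
    hX (Finset.mem_union_right _ (Finset.mem_image_of_mem _ (Finset.mem_univ σ)))
  obtain ⟨e, p⟩ := exists_pr n gX.2.1
  have h1 : e₀.coeff 1 - e.coeff 1 < d ^ 2 := by
    have a1 : ⌊e₀.coeff 1 / d ^ 2⌋₊ ≤ ⌊e.coeff 1 / d ^ 2⌋₊ := not_lt.1 (hm (X, e) ⟨gX, p⟩)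
    have a2 := Nat.lt_floor_add_one (e₀.coeff 1 / d ^ 2)
    have a3 := Nat.floor_le (div_nonneg (p.nonneg gX.2.1) (sq_nonneg d))
    have a4 : (⌊e₀.coeff 1 / d ^ 2⌋₊ : ℚ) ≤ ⌊e.coeff 1 / d ^ 2⌋₊ := Nat.cast_le.2 a1
    rw [← div_lt_one (pow_pos d0 2), sub_div]
    linarith
  have h2 := p.2.2 (∑ σ, MonoidAlgebra.single (t σ) ((Equiv.Perm.sign σ : ℤ) : ℚ))
    (fun K _ _ ρ => by
      have := std_zero (K := K) (A := Matrix (Fin n) (Fin n) K) (k := l.length)
        (by simp [Module.finrank_matrix, hk]) fun i => ρ (l.get i)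
      rw [map_sum, ← mul_zero (ρ l.prod⁻¹), ← this, Finset.mul_sum]
      refine Finset.sum_congr rfl fun σ _ => ?_
      rw [act_single, ht, map_mul, map_list_prod, List.map_ofFn, mul_smul_comm,
        Int.cast_smul_eq_zsmul]
      rfl)
    fun g hg => by
      rw [MonoidAlgebra.coeff_sum, Finsupp.finsetSum_apply]
      exact Finset.sum_eq_zero fun σ _ => Finsupp.single_eq_of_ne fun c => hg (c ▸ tX σ)
  have h3 : ∑ σ, e.coeff (t σ) * ((Equiv.Perm.sign σ : ℤ) : ℚ) = 0 := by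
    simp only [MonoidAlgebra.coeff_sum, Finsupp.finsetSum_apply, Finset.mul_sum] at h2
    rw [Finset.sum_comm] at h2
    refine Eq.trans (Finset.sum_congr rfl fun σ _ => ?_) h2
    rw [Finset.sum_eq_single_of_mem _ (tX σ) fun g _ c => mul_eq_zero_of_right _
      (Finsupp.single_eq_of_ne c)]
    simp
  rw [← Finset.add_sum_erase _ _ (Finset.mem_univ 1)] at h3
  have h4 := Finset.card_nsmul_le_sum (Finset.univ.erase 1)
    (fun σ => e.coeff (t σ) * ((Equiv.Perm.sign σ : ℤ) : ℚ)) (-d) fun σ hσ => by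
      have a1 := (p.sq_le p0 g0.2.1 s0 (tX σ) (ht ▸ l2 _ (pe σ) fun c => ?_)).trans_lt h1
      · have a2 := abs_lt.1 (abs_lt_of_sq_lt_sq a1 d0.le)
        rcases Int.units_eq_one_or (Equiv.Perm.sign σ) with a | a <;> simp [a] <;> linarith
      · refine (Finset.mem_erase.1 hσ).1 (Equiv.ext fun i => List.nodup_iff_injective_get.1 l1 ?_)
        exact congrFun (List.ofFn_injective (c.trans (List.ofFn_get l).symm)) i
  have h5 := c X e gX p
  rw [Finset.card_erase_of_mem (Finset.mem_univ _), Finset.card_univ, nsmul_eq_mul,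
    Nat.cast_pred Fintype.card_pos] at h4
  have h6 : t 1 = 1 := by simp [ht]
  have h7 : Fintype.card (Equiv.Perm (Fin l.length)) * d = ε := by
    rw [hd, mul_div_cancel₀ _ c0.ne']
  simp only [h6, Equiv.Perm.sign_one, Units.val_one, Int.cast_one, mul_one] at h3
  linarith

theorem t2 (hR : SRank) : ST2 := by
  classical
  intro G _ hW hL
  refine ⟨fcs G, by_contra fun hD => ?_, fun g hg => hg⟩
  choose X e h1 h2 h3 using fun n =>
    small hD hL n (show (0 : ℚ) < 1 / 2 * (1 / 2) ^ (n + 1) by positivity)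
  obtain ⟨K, _, _, _, n, ρ, v, v1, v2⟩ := hW (Set.range e) fun T hT => by
    obtain ⟨s, -, rfl⟩ := Finset.subset_set_image_iff.1 (Set.image_univ ▸ hT)
    refine hR G _ (hL (s.biUnion X) fun g hg => ?_) _ (fun x hx => ?_) ?_
    · obtain ⟨j, -, hj⟩ := Finset.mem_biUnion.1 hg
      exact (h1 j).1 g hj
    · obtain ⟨j, hj, rfl⟩ := Finset.mem_image.1 hx
      exact ⟨(h2 j).idem (h1 j), fun g hg => Subgroup.subset_closure
        (Finset.subset_biUnion_of_mem X hj (by_contra fun c =>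
          Finsupp.mem_support_iff.1 hg ((h2 j).1 g c)))⟩
    · refine (Finset.sum_image_le_of_nonneg fun x hx => ?_).trans_lt ?_
      · obtain ⟨j, -, rfl⟩ := Finset.mem_image.1 hx
        exact (h2 j).nonneg (h1 j).2.1
      · obtain ⟨m, hm⟩ := s.exists_nat_subset_range
        have a : ∀ m : ℕ, ∑ j ∈ Finset.range m, (1 / 2 : ℚ) * (1 / 2) ^ (j + 1) =
            1 / 2 * (1 - (1 / 2) ^ m) := fun m => by
          induction m with
          | zero => simp
          | succ m ih => rw [Finset.sum_range_succ, ih]; ring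
        refine ((Finset.sum_le_sum fun j _ => (h3 j).le).trans
          (Finset.sum_le_sum_of_subset_of_nonneg hm fun _ _ _ => by positivity)).trans_lt ?_
        have : (0 : ℚ) < (1 / 2) ^ m := by positivity
        rw [a]
        linarith
  have a := (h2 n).2.1 K ρ
  rw [map_sub, map_one, sub_eq_zero] at a
  exact v1 (by rw [← one_mulVec v, a]; exact v2 _ ⟨n, rfl⟩)

end Pool.Agent.MP_6a4325_al.H76
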